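import Pool.Agent.Lib.H56C.C2

/-!
# H56W, file TW: the twin lemma (MP_33911d_co, branch I)

`Twin cross x x' side ρ`: `x'` is a twin of `x`: `xx'` crosses nothing, `x'b` is parallel to `xb`, and `x'b`
crosses `xd` if and only if `b`, `d` are on the same side of the gap of `x'` and `d` is nearer to the gap.
`con`: contraction of a plane set which contains `xx'`. `tw1`: if the link of the contraction is acyclic then the
link is acyclic. `tw`: the same for all plane sets which are not 2-connected.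

PROOF of `tw1`. `K0`: the free edges except `x'z` with `xz ∈ F'` and `xz` with `x'z ∈ F'`. `A = Un (con F')`,
`S0 = {e ∈ K0 : x' ∉ e}`, `TA` = the rays `x'z ∈ K0` with `xz ∉ K0`, `TS` = the rays `xz` with `x'z ∈ TA`, `T1` = the
rays `x'z ∈ K0` with `xz ∈ K0`. `A = S0 ∪ TS`; `A`, `A ∪ TA = (S0 ∪ TA) ∪ TS`, `S0 ∪ TA`, `K0 = (S0 ∪ TA) ∪ T1` are
acyclic together (`H98Z.split`), all links are cones. Then `K0` and `Un F'`.
-/

set_option autoImplicit false
set_option linter.unusedSectionVars false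

namespace H56W

open Finset H98P H98Z H98M H36L H56C

variable {V : Type*} [Fintype V] [DecidableEq V]

/-- `x'` is a twin of `x` -/
structure Twin (cross : Sym2 V → Sym2 V → Prop) (x x' : V) (side : V → ℕ) (ρ : V → ℝ) : Prop where
  symm : ∀ e f, cross e f → cross f e
  adj : ∀ a b c, ¬ cross s(a, b) s(a, c)
  ne : x ≠ x'
  sh : ∀ e, ¬ cross s(x, x') e
  par : ∀ b, b ≠ x → b ≠ x' → ∀ e, x ∉ e → x' ∉ e → (cross s(x', b) e ↔ cross s(x, b) e)
  tw : ∀ b d, b ≠ x → b ≠ x' → d ≠ x → d ≠ x' →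
    (cross s(x', b) s(x, d) ↔ side b = side d ∧ ρ d < ρ b)

/-- `F` is the contraction of `F'` -/
def Con (x x' : V) (F' F : Finset (Sym2 V)) : Prop :=
  ∀ e, e ∈ F ↔ (e ∈ F' ∧ x' ∉ e) ∨ ∃ b, b ≠ x ∧ s(x', b) ∈ F' ∧ e = s(x, b)

/-- a cone -/
theorem acy_apex {E : Type*} [Fintype E] [DecidableEq E] {cross : E → E → Prop}
    (hsymm : ∀ e f, cross e f → cross f e) {X : Finset E} {d : E} (hd : d ∈ X)
    (h : ∀ z ∈ X, ¬ cross d z) : Acy cross X := by
  intro z hz hb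
  refine acyclic hsymm (S := {d}) (singleton_subset_iff.2 hd) ?_ (fun F hF _ => ⟨d, mem_singleton_self d,
    fun f hf => h f (mem_sdiff.1 (hF hf)).1⟩) hz hb
  intro a ha b hb'
  rw [mem_singleton] at ha hb'
  rw [ha, hb']
  exact h d hd

variable {cross : Sym2 V → Sym2 V → Prop} {x x' : V} {side : V → ℕ} {ρ : V → ℝ}

/-- the special rays -/
def Sp (x x' : V) (F' : Finset (Sym2 V)) (e : Sym2 V) : Prop :=
  ∃ z, (e = s(x', z) ∧ s(x, z) ∈ F') ∨ (e = s(x, z) ∧ s(x', z) ∈ F')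

/-- membership in `K0` -/
def InK (cross : Sym2 V → Sym2 V → Prop) (x x' : V) (W : Finset V) (F' : Finset (Sym2 V))
    (e : Sym2 V) : Prop :=
  e ∈ LW W ∧ (∀ f ∈ F', ¬ cross e f) ∧ e ∉ F' ∧ ¬ Sp x x' F' e

theorem Twin.ray (h : Twin cross x x' side ρ) {W : Finset V} {F' : Finset (Sym2 V)}
    (hxx : s(x, x') ∈ F') {z : V} (hz : InK cross x x' W F' s(x', z)) : z ≠ x ∧ z ≠ x' ∧ z ∈ W := by
  obtain ⟨h1, _, h3, _⟩ := hz
  obtain ⟨_, h4, h5⟩ := mem_LW.1 h1
  refine ⟨?_, Ne.symm h5, h4⟩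
  rintro rfl
  rw [Sym2.eq_swap] at h3
  exact h3 hxx

/-- If `x'z` is in `K0` and `xz` is not, then some `x'b ∈ F'` crosses `xz`. -/
theorem Twin.blk (h : Twin cross x x' side ρ) {W : Finset V} {F' : Finset (Sym2 V)} (hx : x ∈ W)
    (hF : F' ⊆ LW W) (hxx : s(x, x') ∈ F') {z : V} (hz : InK cross x x' W F' s(x', z))
    (hz' : ¬ InK cross x x' W F' s(x, z)) :
    ∃ b, b ≠ x ∧ b ≠ x' ∧ s(x', b) ∈ F' ∧ side b = side z ∧ ρ z < ρ b := by
  obtain ⟨zx, zx', zW⟩ := h.ray hxx hz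
  obtain ⟨_, h2, h3, h4⟩ := hz
  by_contra hcon
  push Not at hcon
  apply hz'
  have h5 : s(x, z) ∉ F' := fun h6 => h4 ⟨z, Or.inl ⟨rfl, h6⟩⟩
  refine ⟨mem_LW.2 ⟨hx, zW, Ne.symm zx⟩, fun f hf hc => ?_, h5, ?_⟩
  · have hfW := hF hf
    by_cases hxf : x ∈ f
    · obtain ⟨a, rfl⟩ := hxf
      exact h.adj x z a hc
    · by_cases hxf' : x' ∈ f
      · obtain ⟨a, rfl⟩ := hxf'
        have ax : a ≠ x := by
          rintro rfl
          exact hxf (Sym2.mem_mk_right _ _)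
        have ax' : a ≠ x' := fun h6 => (mem_LW.1 hfW).2.2 h6.symm
        have h6 := (h.tw a z ax ax' zx zx').1 (h.symm _ _ hc)
        exact absurd h6.2 (not_lt.2 (hcon a ax ax' hf h6.1))
      · exact h2 f hf ((h.par z zx zx' f hxf hxf').2 hc)
  · rintro ⟨w, ⟨h6, h7⟩ | ⟨h6, h7⟩⟩
    · rw [Sym2.eq_iff] at h6
      rcases h6 with ⟨h6, _⟩ | ⟨_, h6⟩
      · exact h.ne h6
      · exact zx' h6
    · rw [Sym2.eq_iff] at h6
      rcases h6 with ⟨_, h6⟩ | ⟨h6, h6'⟩
      · rw [← h6] at h7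
        exact h3 h7
      · exact zx h6'

/-- CLAIM 1 -/
theorem Twin.k0 (h : Twin cross x x' side ρ) {W : Finset V} {F' F : Finset (Sym2 V)} (hx : x ∈ W)
    (hF : F' ⊆ LW W) (hp : Plane cross F') (hxx : s(x, x') ∈ F') (hC : Con x x' F' F)
    (hA : Acy cross (Un cross (W.erase x') F)) {K0 : Finset (Sym2 V)}
    (hK : ∀ e, e ∈ K0 ↔ InK cross x x' W F' e) : Acy cross K0 := by
  classical
  have hxx' := h.ne
  obtain ⟨S0, hS0⟩ : ∃ S0 : Finset (Sym2 V), ∀ e, e ∈ S0 ↔ e ∈ K0 ∧ x' ∉ e :=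
    ⟨K0.filter fun e => x' ∉ e, fun e => mem_filter⟩
  obtain ⟨TA, hTA⟩ : ∃ TA : Finset (Sym2 V), ∀ e, e ∈ TA ↔ ∃ z, e = s(x', z) ∧ s(x', z) ∈ K0 ∧
      s(x, z) ∉ K0 :=
    ⟨univ.filter fun e => ∃ z, e = s(x', z) ∧ s(x', z) ∈ K0 ∧ s(x, z) ∉ K0, fun e => by
      rw [mem_filter]
      exact ⟨fun h => h.2, fun h => ⟨mem_univ _, h⟩⟩⟩
  obtain ⟨TS, hTS⟩ : ∃ TS : Finset (Sym2 V), ∀ e, e ∈ TS ↔ ∃ z, e = s(x, z) ∧ s(x', z) ∈ K0 ∧
      s(x, z) ∉ K0 :=
    ⟨univ.filter fun e => ∃ z, e = s(x, z) ∧ s(x', z) ∈ K0 ∧ s(x, z) ∉ K0, fun e => by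
      rw [mem_filter]
      exact ⟨fun h => h.2, fun h => ⟨mem_univ _, h⟩⟩⟩
  obtain ⟨T1, hT1⟩ : ∃ T1 : Finset (Sym2 V), ∀ e, e ∈ T1 ↔ ∃ z, e = s(x', z) ∧ s(x', z) ∈ K0 ∧
      s(x, z) ∈ K0 :=
    ⟨univ.filter fun e => ∃ z, e = s(x', z) ∧ s(x', z) ∈ K0 ∧ s(x, z) ∈ K0, fun e => by
      rw [mem_filter]
      exact ⟨fun h => h.2, fun h => ⟨mem_univ _, h⟩⟩⟩
  have hblk : ∀ z, s(x', z) ∈ K0 → s(x, z) ∉ K0 →
      ∃ b, b ≠ x ∧ b ≠ x' ∧ s(x', b) ∈ F' ∧ side b = side z ∧ ρ z < ρ b := fun z h1 h2 =>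
    h.blk hx hF hxx ((hK _).1 h1) fun h3 => h2 ((hK _).2 h3)
  have hray : ∀ z, s(x', z) ∈ K0 → z ≠ x ∧ z ≠ x' ∧ z ∈ W := fun z h1 => h.ray hxx ((hK _).1 h1)
  have hray2 : ∀ z, s(x, z) ∈ K0 → z ≠ x ∧ z ≠ x' ∧ z ∈ W := by
    intro z h1
    obtain ⟨h2, _, h4, _⟩ := (hK _).1 h1
    obtain ⟨_, h5, h6⟩ := mem_LW.1 h2
    refine ⟨Ne.symm h6, ?_, h5⟩
    rintro rfl
    exact h4 hxx
  -- `A = S0 ∪ TS`
  have hAeq : Un cross (W.erase x') F = S0 ∪ TS := by
    ext e
    rw [mem_un, mem_union, hS0, hTS, hK]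
    constructor
    · rintro ⟨h1, h2, h3⟩
      have hx'e : x' ∉ e := by
        intro h4
        obtain ⟨a, rfl⟩ := h4
        exact (mem_erase.1 (mem_LW.1 h1).1).1 rfl
      have h1' : e ∈ LW W := LW_mono (erase_subset _ _) h1
      by_cases hxe : x ∈ e
      · obtain ⟨z, rfl⟩ := hxe
        obtain ⟨_, hz1, hz2⟩ := mem_LW.1 h1
        obtain ⟨hzx', hzW⟩ := mem_erase.1 hz1
        have hzx : z ≠ x := Ne.symm hz2
        have n1 : s(x, z) ∉ F' := fun h4 => h3 ((hC _).2 (Or.inl ⟨h4, hx'e⟩))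
        have n2 : s(x', z) ∉ F' := fun h4 => h3 ((hC _).2 (Or.inr ⟨z, hzx, h4, rfl⟩))
        have hsp : ¬ Sp x x' F' s(x, z) := by
          rintro ⟨w, ⟨h6, h7⟩ | ⟨h6, h7⟩⟩
          · exact hx'e (by rw [h6]; exact Sym2.mem_mk_left _ _)
          · rw [Sym2.eq_iff] at h6
            rcases h6 with ⟨_, h6⟩ | ⟨h6, h6'⟩
            · rw [← h6] at h7
              exact n2 h7
            · exact hzx h6'
        by_cases hin : InK cross x x' W F' s(x, z)
        · exact Or.inl ⟨hin, hx'e⟩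
        · right
          have hc : ∃ f ∈ F', cross s(x, z) f := by
            by_contra hc
            push Not at hc
            exact hin ⟨h1', hc, n1, hsp⟩
          obtain ⟨f, hf, hc⟩ := hc
          have hx'f : x' ∈ f := by
            by_contra h4
            exact h2 f ((hC _).2 (Or.inl ⟨hf, h4⟩)) hc
          obtain ⟨b, rfl⟩ := hx'f
          have hbx' : b ≠ x' := fun h4 => (mem_LW.1 (hF hf)).2.2 h4.symm
          have hbx : b ≠ x := by
            rintro rfl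
            rw [Sym2.eq_swap (a := x')] at hc
            exact h.adj b z x' hc
          have h5 := (h.tw b z hbx hbx' hzx hzx').1 (h.symm _ _ hc)
          refine ⟨z, rfl, (hK _).2 ⟨mem_LW.2 ⟨?_, hzW, Ne.symm hzx'⟩, fun g hg hcg => ?_, n2, ?_⟩,
            fun h6 => hin ((hK _).1 h6)⟩
          · exact (mem_LW.1 (hF hf)).1
          · by_cases hxg : x ∈ g
            · obtain ⟨d, rfl⟩ := hxg
              have hdx : d ≠ x := fun h6 => (mem_LW.1 (hF hg)).2.2 h6.symm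
              have hdx' : d ≠ x' := by
                rintro rfl
                rw [Sym2.eq_swap (a := x)] at hcg
                exact h.adj d z x hcg
              have h6 := (h.tw z d hzx hzx' hdx hdx').1 hcg
              exact hp _ hf _ hg ((h.tw b d hbx hbx' hdx hdx').2 ⟨h5.1.trans h6.1, h6.2.trans h5.2⟩)
            · by_cases hx'g : x' ∈ g
              · obtain ⟨d, rfl⟩ := hx'g
                exact h.adj x' z d hcg
              · exact h2 g ((hC _).2 (Or.inl ⟨hg, hx'g⟩)) ((h.par z hzx hzx' g hxg hx'g).1 hcg)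
          · rintro ⟨w, ⟨h6, h7⟩ | ⟨h6, h7⟩⟩
            · rw [Sym2.eq_iff] at h6
              rcases h6 with ⟨_, h6⟩ | ⟨h6, h6'⟩
              · rw [← h6] at h7
                exact n1 h7
              · exact hzx' h6'
            · rw [Sym2.eq_iff] at h6
              rcases h6 with ⟨h6, _⟩ | ⟨_, h6⟩
              · exact hxx' h6.symm
              · exact hzx h6
      · left
        refine ⟨⟨h1', fun f hf hc => ?_, fun h4 => h3 ((hC _).2 (Or.inl ⟨h4, hx'e⟩)), ?_⟩, hx'e⟩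
        · by_cases hx'f : x' ∈ f
          · obtain ⟨b, rfl⟩ := hx'f
            by_cases hbx : b = x
            · subst hbx
              rw [Sym2.eq_swap (a := x')] at hc
              exact h.sh _ (h.symm _ _ hc)
            · have hbx' : b ≠ x' := fun h4 => (mem_LW.1 (hF hf)).2.2 h4.symm
              exact h2 s(x, b) ((hC _).2 (Or.inr ⟨b, hbx, hf, rfl⟩))
                (h.symm _ _ ((h.par b hbx hbx' e hxe hx'e).1 (h.symm _ _ hc)))
          · exact h2 f ((hC _).2 (Or.inl ⟨hf, hx'f⟩)) hc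
        · rintro ⟨w, ⟨h6, _⟩ | ⟨h6, _⟩⟩
          · exact hx'e (by rw [h6]; exact Sym2.mem_mk_left _ _)
          · exact hxe (by rw [h6]; exact Sym2.mem_mk_left _ _)
    · rintro (⟨⟨h1, h2, h3, h4⟩, hx'e⟩ | ⟨z, rfl, hz, hz'⟩)
      · refine ⟨?_, fun f hf hc => ?_, fun h5 => ?_⟩
        · induction e with
          | _ a b =>
            obtain ⟨ha, hb, hab⟩ := mem_LW.1 h1
            rw [Sym2.mem_iff, not_or] at hx'e
            exact mem_LW.2 ⟨mem_erase.2 ⟨Ne.symm hx'e.1, ha⟩, mem_erase.2 ⟨Ne.symm hx'e.2, hb⟩, hab⟩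
        · rcases (hC _).1 hf with ⟨h5, _⟩ | ⟨b, hbx, hb, rfl⟩
          · exact h2 f h5 hc
          · by_cases hxe : x ∈ e
            · obtain ⟨a, rfl⟩ := hxe
              exact h.adj x a b hc
            · have hbx' : b ≠ x' := fun h6 => (mem_LW.1 (hF hb)).2.2 h6.symm
              exact h2 _ hb (h.symm _ _ ((h.par b hbx hbx' e hxe hx'e).2 (h.symm _ _ hc)))
        · rcases (hC _).1 h5 with ⟨h6, _⟩ | ⟨b, hbx, hb, rfl⟩
          · exact h3 h6
          · exact h4 ⟨b, Or.inr ⟨rfl, hb⟩⟩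
      · obtain ⟨hzx, hzx', hzW⟩ := hray z hz
        obtain ⟨h1, h2, h3, h4⟩ := (hK _).1 hz
        refine ⟨mem_LW.2 ⟨mem_erase.2 ⟨hxx', hx⟩, mem_erase.2 ⟨hzx', hzW⟩, Ne.symm hzx⟩,
          fun f hf hc => ?_, fun h5 => ?_⟩
        · rcases (hC _).1 hf with ⟨h5, h6⟩ | ⟨b, hbx, hb, rfl⟩
          · by_cases hxf : x ∈ f
            · obtain ⟨a, rfl⟩ := hxf
              exact h.adj x z a hc
            · exact h2 f h5 ((h.par z hzx hzx' f hxf h6).2 hc)
          · exact h.adj x z b hc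
        · rcases (hC _).1 h5 with ⟨h6, _⟩ | ⟨b, hbx, hb, h6⟩
          · exact h4 ⟨z, Or.inl ⟨rfl, h6⟩⟩
          · rw [Sym2.eq_iff] at h6
            rcases h6 with ⟨_, h6⟩ | ⟨h6, h6'⟩
            · rw [← h6] at hb
              exact h3 hb
            · exact hzx h6'
  -- the rays of `x'`
  have zof : ∀ (P : V → Prop) (Y T : Finset (Sym2 V)) (u : V), (∀ e ∈ T, ∃ z, e = s(u, z) ∧ P z) →
      Y ⊆ T → Y.Nonempty → ((univ.filter fun z => s(u, z) ∈ Y).Nonempty ∧
        ∀ e ∈ Y, ∃ z, e = s(u, z) ∧ P z ∧ z ∈ univ.filter fun z => s(u, z) ∈ Y) := by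
    intro P Y T u hT hY hne
    have h1 : ∀ e ∈ Y, ∃ z, e = s(u, z) ∧ P z ∧ z ∈ univ.filter fun z => s(u, z) ∈ Y := by
      intro e he
      obtain ⟨z, rfl, hz⟩ := hT e (hY he)
      exact ⟨z, rfl, hz, mem_filter.2 ⟨mem_univ _, he⟩⟩
    obtain ⟨e, he⟩ := hne
    obtain ⟨z, _, _, hz⟩ := h1 e he
    exact ⟨⟨z, hz⟩, h1⟩
  -- Step I
  have hS0x : ∀ e ∈ S0, x' ∉ e := fun e he => ((hS0 e).1 he).2
  have hTSx : ∀ e ∈ TS, x' ∉ e := by
    intro e he
    obtain ⟨z, rfl, hz, _⟩ := (hTS e).1 he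
    rw [Sym2.mem_iff, not_or]
    exact ⟨Ne.symm hxx', Ne.symm (hray z hz).2.1⟩
  have hB : Acy cross ((S0 ∪ TS) ∪ TA) := by
    refine split_mpr h.symm ?_ (fun Y hY hne _ => ?_) (by rw [← hAeq]; exact hA)
    · rw [disjoint_left]
      intro e h1 h2
      obtain ⟨z, rfl, _⟩ := (hTA e).1 h2
      rcases mem_union.1 h1 with h3 | h3
      · exact hS0x _ h3 (Sym2.mem_mk_left _ _)
      · exact hTSx _ h3 (Sym2.mem_mk_left _ _)
    · obtain ⟨hZ, hYz⟩ := zof (fun z => s(x', z) ∈ K0 ∧ s(x, z) ∉ K0) Y TA x' (fun e he => (hTA e).1 he)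
        hY hne
      obtain ⟨z, hz, hmax⟩ := exists_max_image _ ρ hZ
      have hzY : s(x', z) ∈ Y := (mem_filter.1 hz).2
      obtain ⟨w, hw, hw1, hw2⟩ := (hTA _).1 (hY hzY)
      obtain ⟨hzx, hzx', hzW⟩ := hray z (by
        rw [hw]
        exact hw1)
      have hwz : w = z := by
        rw [Sym2.eq_iff] at hw
        rcases hw with ⟨_, h1⟩ | ⟨h1, h2⟩
        · exact h1.symm
        · exact absurd h2 hzx'
      subst hwz
      refine acy_apex h.symm (d := s(x, w)) (mem_miss.2 ⟨mem_union_right _ ((hTS _).2 ⟨w, rfl, hw1, hw2⟩),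
        fun y hy hc => ?_⟩) fun e he => ?_
      · obtain ⟨b, rfl, ⟨hb1, _⟩, hb⟩ := hYz y hy
        obtain ⟨hbx, hbx', _⟩ := hray b hb1
        exact absurd ((h.tw b w hbx hbx' hzx hzx').1 (h.symm _ _ hc)).2 (not_lt.2 (hmax b hb))
      · obtain ⟨h1, h2⟩ := mem_miss.1 he
        by_cases hxe : x ∈ e
        · obtain ⟨a, rfl⟩ := hxe
          exact h.adj x w a
        · have hx'e : x' ∉ e := by
            rcases mem_union.1 h1 with h3 | h3
            · exact hS0x _ h3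
            · exact hTSx _ h3
          exact fun hc => h2 _ hzY (h.symm _ _ ((h.par w hzx hzx' e hxe hx'e).2 hc))
  -- Step II
  have hS : Acy cross (S0 ∪ TA) := by
    have e1 : (S0 ∪ TS) ∪ TA = (S0 ∪ TA) ∪ TS := by
      rw [union_assoc, union_comm TS, ← union_assoc]
    rw [e1] at hB
    refine split_mp h.symm ?_ (fun Y hY hne _ => ?_) hB
    · rw [disjoint_left]
      intro e h1 h2
      obtain ⟨z, rfl, _, hz2⟩ := (hTS e).1 h2
      rcases mem_union.1 h1 with h3 | h3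
      · exact hz2 ((hS0 _).1 h3).1
      · obtain ⟨w, hw, _⟩ := (hTA _).1 h3
        exact hTSx _ h2 (by rw [hw]; exact Sym2.mem_mk_left _ _)
    · obtain ⟨hZ, hYz⟩ := zof (fun z => s(x', z) ∈ K0 ∧ s(x, z) ∉ K0) Y TS x (fun e he => (hTS e).1 he)
        hY hne
      obtain ⟨z, hz, hmin⟩ := exists_min_image _ ρ hZ
      have hzY : s(x, z) ∈ Y := (mem_filter.1 hz).2
      obtain ⟨w, hw, ⟨hw1, hw2⟩, _⟩ := hYz _ hzY
      have hwz : w = z := by
        rw [Sym2.eq_iff] at hw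
        rcases hw with ⟨_, h1⟩ | ⟨h1, h2⟩
        · exact h1.symm
        · exact absurd h1.symm (hray w hw1).1
      subst hwz
      obtain ⟨hzx, hzx', hzW⟩ := hray w hw1
      obtain ⟨b0, hb0x, hb0x', hb0F, hb0s, hb0r⟩ := hblk w hw1 hw2
      refine acy_apex h.symm (d := s(x', w)) (mem_miss.2 ⟨mem_union_right _ ((hTA _).2 ⟨w, rfl, hw1, hw2⟩),
        fun y hy hc => ?_⟩) fun e he => ?_
      · obtain ⟨b, rfl, ⟨hb1, _⟩, hb⟩ := hYz y hy
        obtain ⟨hbx, hbx', _⟩ := hray b hb1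
        exact absurd ((h.tw w b hzx hzx' hbx hbx').1 hc).2 (not_lt.2 (hmin b hb))
      · obtain ⟨h1, h2⟩ := mem_miss.1 he
        by_cases hx'e : x' ∈ e
        · obtain ⟨a, rfl⟩ := hx'e
          exact h.adj x' w a
        · by_cases hxe : x ∈ e
          · obtain ⟨a, rfl⟩ := hxe
            have haK : s(x, a) ∈ K0 := by
              rcases mem_union.1 h1 with h3 | h3
              · exact ((hS0 _).1 h3).1
              · obtain ⟨u, hu, _⟩ := (hTA _).1 h3
                exact absurd (by rw [hu]; exact Sym2.mem_mk_left _ _) hx'e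
            obtain ⟨hax, hax', _⟩ := hray2 a haK
            intro hc
            have h3 := (h.tw w a hzx hzx' hax hax').1 hc
            exact ((hK _).1 haK).2.1 _ hb0F (h.symm _ _ ((h.tw b0 a hb0x hb0x' hax hax').2
              ⟨hb0s.trans h3.1, h3.2.trans hb0r⟩))
          · exact fun hc => h2 _ hzY (h.symm _ _ ((h.par w hzx hzx' e hxe hx'e).1 hc))
  -- Step III
  have e2 : K0 = (S0 ∪ TA) ∪ T1 := by
    ext e
    rw [mem_union, mem_union, hS0, hTA, hT1]
    constructor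
    · intro he
      by_cases hx'e : x' ∈ e
      · obtain ⟨z, rfl⟩ := hx'e
        by_cases hz : s(x, z) ∈ K0
        · exact Or.inr ⟨z, rfl, he, hz⟩
        · exact Or.inl (Or.inr ⟨z, rfl, he, hz⟩)
      · exact Or.inl (Or.inl ⟨he, hx'e⟩)
    · rintro ((h1 | ⟨z, rfl, h1, _⟩) | ⟨z, rfl, h1, _⟩)
      · exact h1.1
      · exact h1
      · exact h1
  have zeq : ∀ z w, s(x', z) = s(x', w) → z ≠ x' → w = z := by
    intro z w h1 h2
    rw [Sym2.eq_iff] at h1
    rcases h1 with ⟨_, h3⟩ | ⟨_, h4⟩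
    · exact h3.symm
    · exact absurd h4 h2
  rw [e2]
  refine split_mpr h.symm ?_ (fun Y hY hne _ => ?_) hS
  · rw [disjoint_left]
    intro e h1 h2
    obtain ⟨z, rfl, hz1, hz2⟩ := (hT1 e).1 h2
    rcases mem_union.1 h1 with h3 | h3
    · exact hS0x _ h3 (Sym2.mem_mk_left _ _)
    · obtain ⟨w, hw, _, hw2⟩ := (hTA _).1 h3
      rw [zeq z w hw (hray z hz1).2.1] at hw2
      exact hw2 hz2
  · obtain ⟨hZ, hYz⟩ := zof (fun z => s(x', z) ∈ K0 ∧ s(x, z) ∈ K0) Y T1 x' (fun e he => (hT1 e).1 he)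
      hY hne
    obtain ⟨z, hz, hmax⟩ := exists_max_image _ ρ hZ
    have hzY : s(x', z) ∈ Y := (mem_filter.1 hz).2
    obtain ⟨w, hw, ⟨hw1, hw2⟩, _⟩ := hYz _ hzY
    have hzx'0 : z ≠ x' := by
      rintro rfl
      obtain ⟨h1, _⟩ := (hK _).1 (by
        rw [hw]
        exact hw1 : s(z, z) ∈ K0)
      exact (mem_LW.1 h1).2.2 rfl
    have hwz := zeq z w hw hzx'0
    subst hwz
    obtain ⟨hzx, hzx', hzW⟩ := hray w hw1
    refine acy_apex h.symm (d := s(x, w)) (mem_miss.2 ⟨mem_union_left _ ((hS0 _).2 ⟨hw2, ?_⟩),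
      fun y hy hc => ?_⟩) fun e he => ?_
    · rw [Sym2.mem_iff, not_or]
      exact ⟨Ne.symm hxx', Ne.symm hzx'⟩
    · obtain ⟨b, rfl, ⟨hb1, _⟩, hb⟩ := hYz y hy
      obtain ⟨hbx, hbx', _⟩ := hray b hb1
      exact absurd ((h.tw b w hbx hbx' hzx hzx').1 (h.symm _ _ hc)).2 (not_lt.2 (hmax b hb))
    · obtain ⟨h1, h2⟩ := mem_miss.1 he
      by_cases hxe : x ∈ e
      · obtain ⟨a, rfl⟩ := hxe
        exact h.adj x w a
      · by_cases hx'e : x' ∈ e
        · obtain ⟨u, hu, hu1, hu2⟩ : ∃ u, e = s(x', u) ∧ s(x', u) ∈ K0 ∧ s(x, u) ∉ K0 := by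
            rcases mem_union.1 h1 with h3 | h3
            · exact absurd hx'e (hS0x _ h3)
            · exact (hTA _).1 h3
          subst hu
          obtain ⟨hux, hux', _⟩ := hray u hu1
          obtain ⟨b0, hb0x, hb0x', hb0F, hb0s, hb0r⟩ := hblk u hu1 hu2
          intro hc
          have h3 := (h.tw u w hux hux' hzx hzx').1 (h.symm _ _ hc)
          exact ((hK _).1 hw2).2.1 _ hb0F (h.symm _ _ ((h.tw b0 w hb0x hb0x' hzx hzx').2
            ⟨hb0s.trans h3.1, h3.2.trans hb0r⟩))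
        · exact fun hc => h2 _ hzY (h.symm _ _ ((h.par w hzx hzx' e hxe hx'e).2 hc))

/-- If the link of the contraction is acyclic then the link is acyclic. -/
theorem Twin.tw1 (h : Twin cross x x' side ρ) {W : Finset V} {F' F : Finset (Sym2 V)} (hx : x ∈ W)
    (hF : F' ⊆ LW W) (hp : Plane cross F') (hxx : s(x, x') ∈ F') (hC : Con x x' F' F)
    (hA : Acy cross (Un cross (W.erase x') F)) : Acy cross (Un cross W F') := by
  classical
  obtain ⟨K0, hK0⟩ : ∃ K0 : Finset (Sym2 V), ∀ e, e ∈ K0 ↔ InK cross x x' W F' e :=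
    ⟨univ.filter fun e => InK cross x x' W F' e, fun e => by
      rw [mem_filter]
      exact ⟨fun h => h.2, fun h => ⟨mem_univ _, h⟩⟩⟩
  obtain ⟨SP, hSP⟩ : ∃ SP : Finset (Sym2 V), ∀ e, e ∈ SP ↔ e ∈ Un cross W F' ∧ Sp x x' F' e :=
    ⟨univ.filter fun e => e ∈ Un cross W F' ∧ Sp x x' F' e, fun e => by
      rw [mem_filter]
      exact ⟨fun h => h.2, fun h => ⟨mem_univ _, h⟩⟩⟩
  have e1 : Un cross W F' = K0 ∪ SP := by
    ext e
    rw [mem_union, hK0, hSP, mem_un]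
    unfold InK
    tauto
  rw [e1]
  refine split_mpr h.symm ?_ (fun Y hY _ hYp => ?_) (h.k0 hx hF hp hxx hC hA hK0)
  · rw [disjoint_left]
    intro e h1 h2
    exact ((hK0 e).1 h1).2.2.2 ((hSP e).1 h2).2
  · have hYU : ∀ e ∈ Y, e ∈ LW W ∧ (∀ f ∈ F', ¬ cross e f) ∧ e ∉ F' := fun e he =>
      mem_un.1 ((hSP e).1 (hY he)).1
    have hYS : ∀ e ∈ Y, Sp x x' F' e := fun e he => ((hSP e).1 (hY he)).2
    have hnx : ∀ z, s(x', z) ∈ Y → z ≠ x := by
      rintro z hz rfl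
      rw [Sym2.eq_swap] at hz
      exact (hYU _ hz).2.2 hxx
    -- special rays of `F' ∪ Y`
    have hsp : ∀ e, e ∉ F' → e ∉ Y → (Sp x x' (F' ∪ Y) e ↔ Sp x x' F' e) := by
      intro e heF heY
      constructor
      · rintro ⟨z, ⟨rfl, h1⟩ | ⟨rfl, h1⟩⟩
        · rcases mem_union.1 h1 with h2 | h2
          · exact ⟨z, Or.inl ⟨rfl, h2⟩⟩
          · obtain ⟨w, ⟨h3, h4⟩ | ⟨h3, h4⟩⟩ := hYS _ h2
            · rw [Sym2.eq_iff] at h3
              rcases h3 with ⟨h3, _⟩ | ⟨h3, h5⟩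
              · exact absurd h3 h.ne
              · rw [← h3] at h4
                exact absurd rfl ((mem_LW.1 (hF h4)).2.2)
            · rw [Sym2.eq_iff] at h3
              rcases h3 with ⟨_, h3⟩ | ⟨h3, h5⟩
              · rw [← h3] at h4
                exact absurd h4 heF
              · rw [h5] at heF
                rw [Sym2.eq_swap] at heF
                exact absurd hxx heF
        · rcases mem_union.1 h1 with h2 | h2
          · exact ⟨z, Or.inr ⟨rfl, h2⟩⟩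
          · have hzx := hnx z h2
            obtain ⟨w, ⟨h3, h4⟩ | ⟨h3, h4⟩⟩ := hYS _ h2
            · rw [Sym2.eq_iff] at h3
              rcases h3 with ⟨_, h3⟩ | ⟨h3, h5⟩
              · rw [← h3] at h4
                exact absurd h4 heF
              · rw [h5] at heF
                exact absurd hxx heF
            · rw [Sym2.eq_iff] at h3
              rcases h3 with ⟨h3, _⟩ | ⟨_, h5⟩
              · exact absurd h3.symm h.ne
              · exact absurd h5 hzx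
      · rintro ⟨z, ⟨rfl, h1⟩ | ⟨rfl, h1⟩⟩
        · exact ⟨z, Or.inl ⟨rfl, mem_union_left _ h1⟩⟩
        · exact ⟨z, Or.inr ⟨rfl, mem_union_left _ h1⟩⟩
    refine h.k0 (F' := F' ∪ Y) (F := F) hx (union_subset hF fun e he => (hYU e he).1)
      (plane_un h.symm hp hYp fun e he f hf hc => (hYU f hf).2.1 e he (h.symm _ _ hc))
      (mem_union_left _ hxx) ?_ hA ?_
    · intro e
      rw [hC e]
      constructor
      · rintro (⟨h1, h2⟩ | ⟨b, h1, h2, h3⟩)
        · exact Or.inl ⟨mem_union_left _ h1, h2⟩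
        · exact Or.inr ⟨b, h1, mem_union_left _ h2, h3⟩
      · rintro (⟨h1, h2⟩ | ⟨b, h1, h2, h3⟩)
        · rcases mem_union.1 h1 with h3 | h3
          · exact Or.inl ⟨h3, h2⟩
          · obtain ⟨w, ⟨h4, _⟩ | ⟨h4, h5⟩⟩ := hYS _ h3
            · exact absurd (by rw [h4]; exact Sym2.mem_mk_left _ _) h2
            · by_cases hw : w = x
              · subst hw
                exact absurd rfl (mem_LW.1 (by rw [← h4]; exact (hYU e h3).1)).2.2
              · exact Or.inr ⟨w, hw, h5, h4⟩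
        · rcases mem_union.1 h2 with h4 | h4
          · exact Or.inr ⟨b, h1, h4, h3⟩
          · obtain ⟨w, ⟨h5, h6⟩ | ⟨h5, h6⟩⟩ := hYS _ h4
            · rw [Sym2.eq_iff] at h5
              rcases h5 with ⟨_, h5⟩ | ⟨h5, h7⟩
              · rw [← h5] at h6
                left
                rw [h3]
                refine ⟨h6, ?_⟩
                rw [Sym2.mem_iff, not_or]
                exact ⟨Ne.symm h.ne, (mem_LW.1 (hYU _ h4).1).2.2⟩
              · exact absurd h7.symm (mem_LW.1 (hYU _ h4).1).2.2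
            · rw [Sym2.eq_iff] at h5
              rcases h5 with ⟨h5, _⟩ | ⟨_, h7⟩
              · exact absurd h5.symm h.ne
              · exact absurd h7 h1
    · intro e
      rw [mem_miss, hK0]
      unfold InK
      constructor
      · rintro ⟨⟨h1, h2, h3, h4⟩, h5⟩
        have heY : e ∉ Y := fun h6 => h4 (hYS e h6)
        refine ⟨h1, fun f hf => ?_, fun h6 => ?_, fun h6 => h4 ((hsp e h3 heY).1 h6)⟩
        · rcases mem_union.1 hf with hf | hf
          · exact h2 f hf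
          · exact h5 f hf
        · rcases mem_union.1 h6 with h7 | h7
          · exact h3 h7
          · exact heY h7
      · rintro ⟨h1, h2, h3, h4⟩
        rw [mem_union, not_or] at h3
        exact ⟨⟨h1, fun f hf => h2 f (mem_union_left _ hf), h3.1, fun h6 => h4 ((hsp e h3.1 h3.2).2 h6)⟩,
          fun f hf => h2 f (mem_union_right _ hf)⟩

/-- The contraction is a set of edges of `W - x'`. -/
theorem Con.sub (hne : x ≠ x') {W : Finset V} {F' F : Finset (Sym2 V)} (hx : x ∈ W) (hF : F' ⊆ LW W)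
    (hC : Con x x' F' F) : F ⊆ LW (W.erase x') := by
  intro e he
  rcases (hC e).1 he with ⟨h1, h2⟩ | ⟨b, h1, h2, rfl⟩
  · have h3 := hF h1
    induction e with
    | _ a b =>
      obtain ⟨ha, hb, hab⟩ := mem_LW.1 h3
      rw [Sym2.mem_iff, not_or] at h2
      exact mem_LW.2 ⟨mem_erase.2 ⟨Ne.symm h2.1, ha⟩, mem_erase.2 ⟨Ne.symm h2.2, hb⟩, hab⟩
  · obtain ⟨_, hb, hab⟩ := mem_LW.1 (hF h2)
    exact mem_LW.2 ⟨mem_erase.2 ⟨hne, hx⟩, mem_erase.2 ⟨Ne.symm hab, hb⟩, Ne.symm h1⟩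

/-- The contraction is plane. -/
theorem Twin.con_plane (h : Twin cross x x' side ρ) {W : Finset V} {F' F : Finset (Sym2 V)}
    (hF : F' ⊆ LW W) (hp : Plane cross F') (hC : Con x x' F' F) : Plane cross F := by
  have key : ∀ b, b ≠ x → s(x', b) ∈ F' → ∀ f ∈ F', x' ∉ f → ¬ cross s(x, b) f := by
    intro b hb h1 f hf h2 hc
    by_cases hxf : x ∈ f
    · obtain ⟨a, rfl⟩ := hxf
      exact h.adj x b a hc
    · exact hp _ h1 f hf ((h.par b hb (fun h3 => (mem_LW.1 (hF h1)).2.2 h3.symm) f hxf h2).2 hc)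
  intro e he f hf hc
  rcases (hC e).1 he with ⟨h1, h2⟩ | ⟨b, h1, h2, rfl⟩ <;> rcases (hC f).1 hf with ⟨h3, h4⟩ | ⟨b', h3, h4, rfl⟩
  · exact hp e h1 f h3 hc
  · exact key b' h3 h4 e h1 h2 (h.symm _ _ hc)
  · exact key b h1 h2 f h3 h4 hc
  · exact h.adj x b b' hc

/-- The contraction is not 2-connected. -/
theorem con_cut (hne : x ≠ x') {W : Finset V} {F' F : Finset (Sym2 V)} (hx : x ∈ W) (hx' : x' ∈ W)
    (hF : F' ⊆ LW W) (hxx : s(x, x') ∈ F') (hC : Con x x' F' F) {b d : V} (hb : b ≠ x)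
    (hbF : s(x', b) ∈ F') (hd : d ≠ x') (hdF : s(x, d) ∈ F') {v : V} {A B : Finset V}
    (hcut : Cut W F' v A B) : ∃ v A B, Cut (W.erase x') F v A B := by
  have hbx' : b ≠ x' := fun h3 => (mem_LW.1 (hF hbF)).2.2 h3.symm
  have hbW : b ∈ W := (mem_LW.1 (hF hbF)).2.1
  have hdx : d ≠ x := fun h3 => (mem_LW.1 (hF hdF)).2.2 h3.symm
  have hdW : d ∈ W := (mem_LW.1 (hF hdF)).2.1
  have hdis : ∀ {A B : Finset V}, Cut W F' v A B → ∀ u, u ∈ A → u ∈ B → False := fun hc u h1 h2 =>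
    disjoint_left.1 hc.dis h1 h2
  by_cases hvx' : v = x'
  · -- `v = x'`
    subst hvx'
    have key : ∀ A B : Finset V, Cut W F' v A B → x ∈ A → ∃ v' A B, Cut (W.erase v) F v' A B := by
      intro A B hc hxA
      have hdA : d ∈ A := by
        have h1 : d ∈ A ∪ B := by
          rw [hc.un]
          exact mem_erase.2 ⟨hd, hdW⟩
        rcases mem_union.1 h1 with h1 | h1
        · exact h1
        · exact absurd hdF (hc.no x hxA d h1)
      refine ⟨x, A.erase x, B, ⟨d, mem_erase.2 ⟨hdx, hdA⟩⟩, hc.nB,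
        disjoint_of_subset_left (erase_subset _ _) hc.dis, ?_, fun a ha c hcB h1 => ?_⟩
      · have hxB : x ∉ B := fun h1 => hdis hc x hxA h1
        have h2 : ∀ u, u ∈ A ∨ u ∈ B ↔ u ≠ v ∧ u ∈ W := fun u => by
          rw [← mem_union, hc.un, mem_erase]
        ext u
        rw [mem_union, mem_erase, mem_erase, mem_erase]
        have h3 := h2 u
        constructor
        · rintro (⟨h4, h5⟩ | h4)
          · exact ⟨h4, (h3.1 (Or.inl h5))⟩
          · exact ⟨fun h5 => hxB (h5 ▸ h4), (h3.1 (Or.inr h4))⟩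
        · rintro ⟨h4, h5⟩
          rcases h3.2 h5 with h6 | h6
          · exact Or.inl ⟨h4, h6⟩
          · exact Or.inr h6
      · obtain ⟨hax, haA⟩ := mem_erase.1 ha
        rcases (hC _).1 h1 with ⟨h2, _⟩ | ⟨w, hw, h2, h3⟩
        · exact hc.no a haA c hcB h2
        · rw [Sym2.eq_iff] at h3
          rcases h3 with ⟨h3, _⟩ | ⟨_, h3⟩
          · exact hax h3
          · rw [h3] at hcB
            exact hdis hc x hxA hcB
    have hxAB : x ∈ A ∪ B := by
      rw [hcut.un]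
      exact mem_erase.2 ⟨hne, hx⟩
    rcases mem_union.1 hxAB with h1 | h1
    · exact key A B hcut h1
    · exact key B A hcut.symm h1
  · -- `v ≠ x'`
    have key : ∀ A B : Finset V, Cut W F' v A B → x' ∈ A → ∃ v A B, Cut (W.erase x') F v A B := by
      intro A B hc hxA
      have hx'B : x' ∉ B := fun h1 => hdis hc x' hxA h1
      have hxB : x ∉ B := fun h1 => hc.symm.no x h1 x' hxA hxx
      have hbB : b ∉ B := fun h1 => hc.no x' hxA b h1 hbF
      have h2 : ∀ u, u ∈ A ∨ u ∈ B ↔ u ≠ v ∧ u ∈ W := fun u => by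
        rw [← mem_union, hc.un, mem_erase]
      have hne' : (A.erase x').Nonempty := by
        by_cases hvx : v = x
        · have h3 : b ∈ A := by
            rcases (h2 b).2 ⟨fun h4 => hb (h4.trans hvx), hbW⟩ with h4 | h4
            · exact h4
            · exact absurd h4 hbB
          exact ⟨b, mem_erase.2 ⟨hbx', h3⟩⟩
        · have h3 : x ∈ A := by
            rcases (h2 x).2 ⟨Ne.symm hvx, hx⟩ with h4 | h4
            · exact h4
            · exact absurd h4 hxB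
          exact ⟨x, mem_erase.2 ⟨hne, h3⟩⟩
      refine ⟨v, A.erase x', B, hne', hc.nB, disjoint_of_subset_left (erase_subset _ _) hc.dis, ?_,
        fun a ha c hcB h1 => ?_⟩
      · ext u
        rw [mem_union, mem_erase, mem_erase, mem_erase]
        have h3 := h2 u
        constructor
        · rintro (⟨h4, h5⟩ | h4)
          · exact ⟨(h3.1 (Or.inl h5)).1, h4, (h3.1 (Or.inl h5)).2⟩
          · exact ⟨(h3.1 (Or.inr h4)).1, fun h5 => hx'B (h5 ▸ h4), (h3.1 (Or.inr h4)).2⟩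
        · rintro ⟨h4, h5, h6⟩
          rcases h3.2 ⟨h4, h6⟩ with h7 | h7
          · exact Or.inl ⟨h5, h7⟩
          · exact Or.inr h7
      · obtain ⟨hax, haA⟩ := mem_erase.1 ha
        rcases (hC _).1 h1 with ⟨h3, _⟩ | ⟨w, hw, h3, h4⟩
        · exact hc.no a haA c hcB h3
        · rw [Sym2.eq_iff] at h4
          rcases h4 with ⟨_, h4⟩ | ⟨_, h4⟩
          · rw [← h4] at h3
            exact hc.no x' hxA c hcB h3
          · rw [h4] at hcB
            exact hxB hcB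
    have hxAB : x' ∈ A ∪ B := by
      rw [hcut.un]
      exact mem_erase.2 ⟨Ne.symm hvx', hx'⟩
    rcases mem_union.1 hxAB with h1 | h1
    · exact key A B hcut h1
    · exact key B A hcut.symm h1

/-- All links of plane sets of `W` which are not 2-connected are acyclic. -/
def HE2 (cross : Sym2 V → Sym2 V → Prop) (W : Finset V) : Prop :=
  ∀ F : Finset (Sym2 V), F ⊆ LW W → Plane cross F → (∃ v A B, Cut W F v A B) → Acy cross (Un cross W F)

/-- TWIN LEMMA -/
theorem Twin.tw2 (h : Twin cross x x' side ρ) {W : Finset V} (hx : x ∈ W) (hx' : x' ∈ W)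
    (hV : V2 cross W x) (hV' : V2 cross W x') (hE : HE2 cross (W.erase x')) : HE2 cross W := by
  classical
  intro F' hF hp hcut
  by_cases hxx : s(x, x') ∈ F'
  · by_cases hdx : ∀ z, s(x, z) ∈ F' → z = x'
    · exact acy_leaf h.symm h.adj hF hp hx hV hdx
    by_cases hdx' : ∀ z, s(x', z) ∈ F' → z = x
    · exact acy_leaf h.symm h.adj hF hp hx' hV' hdx'
    push Not at hdx hdx'
    obtain ⟨d, hdF, hd⟩ := hdx
    obtain ⟨b, hbF, hb⟩ := hdx'
    obtain ⟨v, A, B, hcut⟩ := hcut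
    obtain ⟨F, hC⟩ : ∃ F, Con x x' F' F :=
      ⟨univ.filter fun e => (e ∈ F' ∧ x' ∉ e) ∨ ∃ b, b ≠ x ∧ s(x', b) ∈ F' ∧ e = s(x, b), fun e => by
        rw [mem_filter]
        exact ⟨fun h => h.2, fun h => ⟨mem_univ _, h⟩⟩⟩
    exact h.tw1 hx hF hp hxx hC (hE F (hC.sub h.ne hx hF) (h.con_plane hF hp hC)
      (con_cut h.ne hx hx' hF hxx hC hb hbF hd hdF hcut))
  · exact acy_apex h.symm (d := s(x, x')) (mem_un.2 ⟨mem_LW.2 ⟨hx, hx', h.ne⟩, fun f _ => h.sh f, hxx⟩)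
      fun z _ => h.sh z

end H56W
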